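import Pool.Agent.MWGX.StmtsA

/-!
# `β` keeps the label modulo `δ` (row LBV of squad MWGX)

Problem MP_23468a_al.
-/

set_option autoImplicit false

namespace Pool.Agent.MWGX.H76

open Pool.Agent.Helper14_MV Pool.Agent.Helper2_MV
open Pool.Agent.MWGQ (pw Gn)
open Pool.Agent.MWGR (X It Dm)
open Pool.Agent.MWGX

theorem pw1 (k : ℕ) : pw k [1] = List.replicate k 1 := by
  induction k with
  | zero => rfl
  | succ k ih =>
    unfold pw at ih ⊢
    rw [List.replicate_succ, List.flatten_cons, ih]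
    rfl

theorem flX (f : ℕ → List ℕ) (hf : f 0 = [0]) (k : ℕ) : (X k).flatMap f = X k := by
  induction k with
  | zero => rfl
  | succ k ih =>
    rw [X, List.replicate_succ, List.flatMap_cons, hf]
    rw [X] at ih
    rw [ih]
    rfl

theorem flY (f : ℕ → List ℕ) (hf : f 1 = [1]) (k : ℕ) :
    (List.replicate k 1).flatMap f = List.replicate k 1 := by
  induction k with
  | zero => rfl
  | succ k ih =>
    rw [List.replicate_succ, List.flatMap_cons, hf, ih]
    rfl

/-- insert `X f` in front of the separator, multiply with `X a` and `1^g` -/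
theorem wdn {β : FIC} {i j e i' j' e' : ℕ} (H : RR β
    (X i ++ 1 :: (X j ++ 3 :: List.replicate e 1))
    (X i' ++ 1 :: (X j' ++ 3 :: List.replicate e' 1))) (a f g : ℕ) :
    RR β (X (a + i) ++ 1 :: (X (j + f) ++ 3 :: List.replicate (e + g) 1))
      (X (a + i') ++ 1 :: (X (j' + f) ++ 3 :: List.replicate (e' + g) 1)) := by
  set φ : ℕ → List ℕ := fun c => if c = 3 then X f ++ [3] else [c] with hφ
  have h0 : φ 0 = [0] := by simp [hφ]
  have h1 : φ 1 = [1] := by simp [hφ]
  have h3 : φ 3 = X f ++ [3] := by simp [hφ]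
  have e1 : ∀ i j e : ℕ, (X i ++ 1 :: (X j ++ 3 :: List.replicate e 1)).flatMap φ =
      X i ++ 1 :: (X (j + f) ++ 3 :: List.replicate e 1) := by
    intro i j e
    rw [List.flatMap_append, flX φ h0, List.flatMap_cons, h1, List.flatMap_append, flX φ h0,
      List.flatMap_cons, h3, flY φ h1]
    have e2 : X (j + f) = X j ++ X f := List.replicate_add ..
    rw [e2]
    simp only [List.append_assoc, List.cons_append, List.nil_append]
  have h4 := H.sub φ
  rw [e1, e1] at h4
  have h5 := ((RR.refl (β := β) (X a)).append h4).append (RR.refl (List.replicate g 1))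
  have e3 : ∀ i j e : ℕ, X a ++ (X i ++ 1 :: (X (j + f) ++ 3 :: List.replicate e 1)) ++
      List.replicate g 1 = X (a + i) ++ 1 :: (X (j + f) ++ 3 :: List.replicate (e + g) 1) := by
    intro i j e
    have e2 : X (a + i) = X a ++ X i := List.replicate_add ..
    have e4 : List.replicate (e + g) 1 = List.replicate e 1 ++ List.replicate g 1 :=
      List.replicate_add ..
    rw [e2, e4]
    simp only [List.append_assoc, List.cons_append, List.nil_append]
  rw [e3, e3] at h5
  exact h5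

theorem lbv (hF : FlxStmt) (hP : MWGQ.PwxStmt) (hC : MWGQ.CntStmt) : LbvStmt := by
  intro n β δ hg hit hd i j e i' j' e' he he' H
  have hn := hg.pos
  obtain ⟨m, rfl⟩ : ∃ m, n = m + 1 := ⟨n - 1, by omega⟩
  have c0 := (hC (m + 1) β hg _ _ H 0).2.2
  have c1 := (hC (m + 1) β hg _ _ H 1).2.2
  have c0' : i + j ≡ i' + j' [MOD m + 1] := by
    simpa [List.count_append, List.count_cons, List.count_replicate] using c0
  have c1' : e + 1 ≡ e' + 1 [MOD m + 1] := by
    simpa [List.count_append, List.count_cons, List.count_replicate] using c1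
  have c2 : e ≡ e' [MOD m + 1] := Nat.ModEq.add_right_cancel' 1 c1'
  set d := i + m * i' with hdd
  have h1 := wdn H ((m + 1) + m * i') ((m + 1) + m * j) ((m + 1) + 1 + m * e)
  -- the tails
  have hz : ∀ a b : ℕ, a + b * (m + 1) ≡ a [MOD m + 1] := by
    intro a b
    simp [Nat.ModEq]
  have t1 : e + ((m + 1) + 1 + m * e) ≡ 1 [MOD m + 1] := by
    have e1 : e + ((m + 1) + 1 + m * e) = 1 + (1 + e) * (m + 1) := by ring
    rw [e1]
    exact hz 1 _
  have t2 : e' + ((m + 1) + 1 + m * e) ≡ 1 [MOD m + 1] :=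
    (Nat.ModEq.add_right _ c2.symm).trans t1
  have tail : ∀ i j e : ℕ, 1 ≤ e → e ≡ 1 [MOD m + 1] →
      RR β (X i ++ 1 :: (X j ++ 3 :: List.replicate e 1)) (X i ++ 1 :: (X j ++ [3, 1])) := by
    intro i j e he1 he2
    have h2 := (hP (m + 1) β hg).2.1 [1] (X j ++ [3]) e 1 he1 le_rfl he2
    rw [pw1, pw1] at h2
    have h3 := (RR.refl (β := β) (X i)).append h2
    simpa using h3
  have h2 := tail ((m + 1) + m * i' + i) (j + ((m + 1) + m * j)) (e + ((m + 1) + 1 + m * e))
    (by omega) t1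
  have h3 := tail ((m + 1) + m * i' + i') (j' + ((m + 1) + m * j)) (e' + ((m + 1) + 1 + m * e))
    (by omega) t2
  have h4 : RR β (X ((m + 1) + m * i' + i) ++ 1 :: (X (j + ((m + 1) + m * j)) ++ [3, 1]))
      (X ((m + 1) + m * i' + i') ++ 1 :: (X (j' + ((m + 1) + m * j)) ++ [3, 1])) :=
    β.trans h2.symm (β.trans h1 h3)
  -- the exponents
  have x1 : (m + 1) + m * i' + i ≡ (m + 1) + d [MOD m + 1] := by
    have e1 : (m + 1) + m * i' + i = (m + 1) + d := by rw [hdd]; ring
    rw [e1]
  have x2 : j + ((m + 1) + m * j) ≡ m + 1 [MOD m + 1] := by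
    have e1 : j + ((m + 1) + m * j) = (m + 1) + j * (m + 1) := by ring
    rw [e1]
    exact hz _ _
  have x3 : (m + 1) + m * i' + i' ≡ m + 1 [MOD m + 1] := by
    have e1 : (m + 1) + m * i' + i' = (m + 1) + i' * (m + 1) := by ring
    rw [e1]
    exact hz _ _
  have x4 : j' + ((m + 1) + m * j) ≡ (m + 1) + d [MOD m + 1] := by
    apply Nat.ModEq.add_right_cancel' (i' + j)
    have e1 : j' + ((m + 1) + m * j) + (i' + j) = (i' + j') + (1 + j) * (m + 1) := by ring
    have e2 : (m + 1) + d + (i' + j) = (i + j) + (1 + i') * (m + 1) := by rw [hdd]; ring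
    rw [e1, e2]
    exact (hz _ _).trans (c0'.symm.trans (hz _ _).symm)
  have f1 := hF (m + 1) β hit 1 ((m + 1) + m * i' + i) (j + ((m + 1) + m * j)) ((m + 1) + d)
    (m + 1) [] [3, 1] (by omega) (by omega) (by omega) (by omega) x1 x2 (by simp)
  have f2 := hF (m + 1) β hit 1 ((m + 1) + m * i' + i') (j' + ((m + 1) + m * j)) (m + 1)
    ((m + 1) + d) [] [3, 1] (by omega) (by omega) (by omega) (by omega) x3 x4 (by simp)
  have h5 : RR β ([] ++ (X ((m + 1) + d) ++ 1 :: (X (m + 1) ++ [3, 1])))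
      ([] ++ (X (m + 1) ++ 1 :: (X ((m + 1) + d) ++ [3, 1]))) :=
    β.trans f1.symm (β.trans h4 f2)
  have h6 : Dm (m + 1) d (RR β) := by
    set φ : ℕ → List ℕ := fun c => if c = 3 then [2] else [c] with hφ
    have g0 : φ 0 = [0] := by simp [hφ]
    have g1 : φ 1 = [1] := by simp [hφ]
    have g3 : φ 3 = [2] := by simp [hφ]
    have h7 := h5.sub φ
    simp only [List.nil_append, List.flatMap_append, List.flatMap_cons, List.flatMap_nil,
      flX φ g0, g1, g3] at h7
    exact h7
  have h7 : δ ∣ d := (hd.iff d).1 h6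
  have h8 : δ ∣ m + 1 := hd.dv
  have h9 : d + i' = i + (m + 1) * i' := by rw [hdd]; ring
  have y1 : d + i' ≡ 0 + i' [MOD δ] := Nat.ModEq.add_right _ ((Nat.modEq_zero_iff_dvd).2 h7)
  have y2 : i + (m + 1) * i' ≡ i + 0 [MOD δ] :=
    Nat.ModEq.add_left _ ((Nat.modEq_zero_iff_dvd).2 (Dvd.dvd.mul_right h8 i'))
  rw [h9] at y1
  simpa using y2.symm.trans y1

end Pool.Agent.MWGX.H76
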